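import Pool.Agent.Helper65.BT.Rows

/-!
# Project BERTINI: coordinates (COORD)
-/

universe u v

namespace Pool.Agent.BT

open MvPolynomial

lemma isHomogeneous_row {K : Type u} [Field K] {P : ℕ} (a : Fin P → K) :
    (∑ j, C (a j) * X j : MvPolynomial (Fin P) K).IsHomogeneous 1 :=
  IsHomogeneous.sum _ _ _ fun j _ => by
    have := (isHomogeneous_C (Fin P) (a j)).mul (isHomogeneous_X K j)
    rwa [zero_add] at this

/-- COORD: if `t + 3` linear forms have no common zero with the forms `h u`, then after a suitable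
invertible rational change of variables the forms `X 0, …, X (t + 2)` have none: certificate. -/
theorem exists_coord {K : Type u} [Field K] [CharZero K] {N t : ℕ} (ht : t ≤ N) {U : Type}
    [Fintype U] {e : U → ℕ} (h : U → MvPolynomial (Fin (N + 3)) K)
    (hh : ∀ u, (h u).IsHomogeneous (e u)) (l : Fin (t + 3) → Fin (N + 3) → K)
    (hl : ∀ (L : Type u) [Field L] [Algebra K L] (P : Fin (N + 3) → L),
      (∀ i, ∑ j, algebraMap K L (l i j) * P j = 0) → (∀ u, aeval P (h u) = 0) → P = 0) :
    ∃ (g : Matrix (Fin (N + 3)) (Fin (N + 3)) ℚ) (c : ℕ), g.det ≠ 0 ∧ 1 ≤ c ∧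
      ∀ q : MonV (N + 2) c, ∃ (A : MonV (N + 2) (c - 1) → K)
        (B : Fin (t + 2) → MonV (N + 2) (c - 1) → K) (b : U → MvPolynomial (Fin (N + 2)) K),
        (∀ u, b u ≠ 0 → (b u).totalDegree + e u ≤ c) ∧
        pol A + ∑ s, pol (B s) * X (Fin.castLE (by omega) s) +
          ∑ u, b u * pol (dehom (e u) (chg g (h u))) = monomial q.1 1 := by
  classical
  -- all forms of degree `c` are combinations
  obtain ⟨c, hc, hG⟩ := exists_comb_of_no_zero (I := Fin (t + 3) ⊕ U)
    (d := Sum.elim (fun _ => 1) e)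
    (Sum.elim (fun i => (∑ j, C (l i j) * X j : MvPolynomial (Fin (N + 3)) K)) h)
    (by
      rintro (i | u)
      · exact isHomogeneous_row _
      · exact hh u)
    (by
      intro Q hQ
      refine hl (AlgebraicClosure K) Q (fun i => ?_) fun u => hQ (Sum.inr u)
      have h1 := hQ (Sum.inl i)
      rw [Sum.elim_inl, map_sum] at h1
      rw [← h1]
      refine Finset.sum_congr rfl fun j _ => ?_
      rw [map_mul, aeval_X, aeval_C])
  obtain ⟨g, hg, hG'⟩ := exists_rational_rows (r := t + 3) (by omega) hc h hh l (by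
    intro G hGc
    obtain ⟨A, hA, hA', hGA⟩ := hG G hGc
    refine ⟨fun i => A (Sum.inl i), fun u => A (Sum.inr u), fun i => hA' (Sum.inl i),
      fun u hu => hA (Sum.inr u) hu, fun u => hA' (Sum.inr u), ?_⟩
    rw [hGA, Fintype.sum_sum_type]
    rfl)
  have hgg : g * g⁻¹ = 1 := Matrix.mul_nonsing_inv _ (isUnit_iff_ne_zero.2 hg)
  have hdet' : (g⁻¹).det ≠ 0 := by
    intro h1
    have h2 := congrArg Matrix.det hgg
    rw [Matrix.det_mul, h1, mul_zero, Matrix.det_one] at h2
    exact zero_ne_one h2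
  refine ⟨g⁻¹, c, hdet', hc, fun q => ?_⟩
  let qt : MvPolynomial (Fin (N + 3)) K := monomial (Finsupp.cons (c - q.1.degree) q.1) 1
  have hqd : (Finsupp.cons (c - q.1.degree) q.1).degree = c := by
    rw [degree_cons_cd]
    have := q.2
    omega
  have hqt : qt.IsHomogeneous c := isHomogeneous_monomial _ hqd
  obtain ⟨A, b, hA, hb, hb', hGA⟩ := hG' (chg g qt) (isHomogeneous_chg g hqt)
  -- back to the old coordinates
  have h1 : qt = ∑ i, chg g⁻¹ (A i) * X (Fin.castLE (by omega) i) +
      ∑ u, chg g⁻¹ (b u) * chg g⁻¹ (h u) := by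
    have h2 := congrArg (chg (K := K) g⁻¹) hGA
    rw [chg_chg, hgg, chg_one, map_add, map_sum, map_sum] at h2
    rw [h2]
    congr 1
    · refine Finset.sum_congr rfl fun i _ => ?_
      rw [map_mul, ← chg_X, chg_chg, hgg, chg_one]
    · refine Finset.sum_congr rfl fun u _ => ?_
      rw [map_mul]
  -- dehomogenization
  let δ : MvPolynomial (Fin (N + 3)) K →ₐ[K] MvPolynomial (Fin (N + 2)) K :=
    aeval (Fin.cons 1 X : Fin (N + 2 + 1) → MvPolynomial (Fin (N + 2)) K)
  have hδ : ∀ {n : ℕ} {p : MvPolynomial (Fin (N + 3)) K}, p.IsHomogeneous n →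
      δ p = pol (dehom n p) := fun hp => (pol_dehom hp).symm
  have hδq : δ qt = monomial q.1 1 := by
    rw [hδ hqt, pol_dehom_monomial _ hqd, Finsupp.tail_cons]
  refine ⟨dehom (c - 1) (chg g⁻¹ (A 0)), fun s => dehom (c - 1) (chg g⁻¹ (A s.succ)),
    fun u => δ (chg g⁻¹ (b u)), fun u hu => ?_, ?_⟩
  · have hbu : b u ≠ 0 := by
      intro h2
      apply hu
      dsimp only
      rw [h2, map_zero, map_zero]
    have h3 := hb u hbu
    have h4 : (δ (chg g⁻¹ (b u))).totalDegree ≤ c - e u := by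
      rw [hδ (isHomogeneous_chg g⁻¹ (hb' u))]
      exact totalDegree_pol_le _
    dsimp only
    omega
  · rw [← hδq, h1, map_add, map_sum, map_sum]
    congr 1
    · refine Eq.trans ?_ (Fin.sum_univ_succ (n := t + 2) fun i : Fin (t + 2 + 1) =>
        δ (chg g⁻¹ (A i) * X (Fin.castLE (by omega) i))).symm
      congr 1
      · rw [map_mul, hδ (isHomogeneous_chg g⁻¹ (hA 0))]
        have h5 : δ (X (Fin.castLE (by omega) (0 : Fin (t + 2 + 1)))) = 1 := by
          rw [show (Fin.castLE (by omega) (0 : Fin (t + 2 + 1)) : Fin (N + 3)) = 0 from rfl]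
          simp only [δ, aeval_X]
          rfl
        rw [h5, mul_one]
      · refine Finset.sum_congr rfl fun s _ => ?_
        rw [map_mul, hδ (isHomogeneous_chg g⁻¹ (hA s.succ))]
        congr 1
        rw [show (Fin.castLE (by omega) s.succ : Fin (N + 3)) =
          (Fin.castLE (by omega) s : Fin (N + 2)).succ from rfl]
        simp only [δ, aeval_X]
        rfl
    · refine Finset.sum_congr rfl fun u _ => ?_
      rw [map_mul, hδ (isHomogeneous_chg g⁻¹ (hh u))]

end Pool.Agent.BT
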