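import Pool.Agent.Helper37.BT.Basic
import Mathlib

/-!
# Project BERTINI: linear changes of variables and dehomogenization
-/

universe u v

namespace Pool.Agent.BT

open MvPolynomial

/-- the linear change of variables `X i ↦ ∑ j, g i j X j` with rational coefficients -/
noncomputable def chg {K : Type u} [Field K] {P : ℕ} (g : Matrix (Fin P) (Fin P) ℚ) :
    MvPolynomial (Fin P) K →ₐ[K] MvPolynomial (Fin P) K :=
  aeval fun i => ∑ j, C ((g i j : ℚ) : K) * X j

/-- the coefficients of the dehomogenization (`z = X 0 = 1`) of a form of degree `e` -/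
noncomputable def dehom {K : Type u} [Field K] {n : ℕ} (e : ℕ) (h : MvPolynomial (Fin (n + 1)) K) :
    MonV n e → K :=
  fun s => coeff (Finsupp.cons (e - s.1.degree) s.1) h

section chg

variable {K : Type u} [Field K] {P : ℕ}

lemma chg_X (g : Matrix (Fin P) (Fin P) ℚ) (i : Fin P) :
    chg (K := K) g (X i) = ∑ j, C ((g i j : ℚ) : K) * X j := by
  rw [chg, aeval_X]

/-- value of the changed form -/
lemma aeval_chg {L : Type v} [Field L] [Algebra K L] [CharZero K] (g : Matrix (Fin P) (Fin P) ℚ)
    (Q : Fin P → L) (h : MvPolynomial (Fin P) K) :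
    aeval Q (chg g h) = aeval (fun i => ∑ j, ((g i j : ℚ) : L) * Q j) h := by
  haveI : CharZero L := charZero_of_injective_algebraMap (algebraMap K L).injective
  rw [chg, ← AlgHom.comp_apply, comp_aeval]
  congr 2
  funext i
  rw [map_sum]
  refine Finset.sum_congr rfl fun j _ => ?_
  rw [map_mul, aeval_X, aeval_C, map_ratCast]

lemma chg_chg [CharZero K] (g g' : Matrix (Fin P) (Fin P) ℚ) (h : MvPolynomial (Fin P) K) :
    chg g' (chg g h) = chg (g * g') h := by
  rw [chg, chg, chg, ← AlgHom.comp_apply, comp_aeval]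
  congr 2
  funext i
  rw [map_sum]
  have h1 : ∀ j, (aeval fun i => ∑ j, C ((g' i j : ℚ) : K) * X j)
      (C ((g i j : ℚ) : K) * X j : MvPolynomial (Fin P) K) =
      ∑ k, C (((g i j * g' j k : ℚ)) : K) * X k := by
    intro j
    rw [map_mul, aeval_X, ← algebraMap_eq, AlgHom.commutes, Finset.mul_sum]
    refine Finset.sum_congr rfl fun k _ => ?_
    rw [algebraMap_eq, Rat.cast_mul, C_mul]
    ring
  rw [Finset.sum_congr rfl fun j _ => h1 j, Finset.sum_comm]
  refine Finset.sum_congr rfl fun k _ => ?_
  rw [← Finset.sum_mul, ← map_sum C, Matrix.mul_apply, Rat.cast_sum]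

lemma chg_one (h : MvPolynomial (Fin P) K) : chg (1 : Matrix (Fin P) (Fin P) ℚ) h = h := by
  classical
  have h1 : (fun i : Fin P => ∑ j, C (((1 : Matrix (Fin P) (Fin P) ℚ) i j : ℚ) : K) *
      (X j : MvPolynomial (Fin P) K)) = X := by
    funext i
    rw [Finset.sum_eq_single i]
    · rw [Matrix.one_apply_eq, Rat.cast_one, C_1, one_mul]
    · intro j _ hj
      rw [Matrix.one_apply_ne hj.symm, Rat.cast_zero, C_0, zero_mul]
    · intro h
      exact absurd (Finset.mem_univ _) h
  rw [chg, h1]
  exact AlgHom.congr_fun (aeval_unique (AlgHom.id K _)).symm h |>.trans (by rfl)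

lemma isHomogeneous_chg (g : Matrix (Fin P) (Fin P) ℚ) {h : MvPolynomial (Fin P) K} {d : ℕ}
    (hh : h.IsHomogeneous d) : (chg g h).IsHomogeneous d := by
  have h1 := hh.aeval (fun i => ∑ j, C ((g i j : ℚ) : K) * (X j : MvPolynomial (Fin P) K))
    (n := 1) fun i => IsHomogeneous.sum _ _ _ fun j _ => by
      have := (isHomogeneous_C (Fin P) ((g i j : ℚ) : K)).mul (isHomogeneous_X K j)
      rwa [zero_add] at this
  rwa [one_mul] at h1

end chg

section dehom

variable {K : Type u} [Field K] {n : ℕ}

lemma degree_cons_cd (a : ℕ) (s : Fin n →₀ ℕ) : (Finsupp.cons a s).degree = a + s.degree := by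
  rw [Finsupp.degree_eq_sum, Finsupp.degree_eq_sum, Fin.sum_univ_succ, Finsupp.cons_zero]
  congr 1

lemma pol_dehom_monomial {e : ℕ} (s : Fin (n + 1) →₀ ℕ) (hs : s.degree = e) (a : K) :
    pol (dehom e (monomial s a)) = monomial (Finsupp.tail s) a := by
  classical
  have h0 : s.degree = s 0 + (Finsupp.tail s).degree := by
    conv_lhs => rw [← Finsupp.cons_tail s]
    exact degree_cons_cd _ _
  have ht : (Finsupp.tail s).degree ≤ e := by omega
  ext t
  by_cases hte : t.degree ≤ e
  · rw [show coeff t (pol (dehom e (monomial s a))) = _ from coeff_pol _ (⟨t, hte⟩ : MonV n e)]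
    rw [dehom, coeff_monomial, coeff_monomial]
    by_cases h : Finsupp.tail s = t
    · rw [if_pos h, if_pos]
      conv_lhs => rw [← Finsupp.cons_tail s]
      rw [h] at h0 ⊢
      congr 1
      change s 0 = e - t.degree
      omega
    · rw [if_neg h, if_neg]
      intro h2
      apply h
      rw [h2, Finsupp.tail_cons]
  · rw [coeff_pol_of _ (by omega), coeff_monomial, if_neg]
    intro h
    rw [h] at ht
    exact hte ht

lemma dehom_add (e : ℕ) (h h' : MvPolynomial (Fin (n + 1)) K) :
    dehom e (h + h') = dehom e h + dehom e h' := by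
  funext s
  exact coeff_add _ _ _

lemma pol_add_cd {D : ℕ} (g g' : MonV n D → K) : pol (g + g') = pol g + pol g' := by
  unfold pol
  rw [← Finset.sum_add_distrib]
  exact Finset.sum_congr rfl fun s _ => by rw [Pi.add_apply, map_add]

lemma pol_zero_cd {D : ℕ} : pol (0 : MonV n D → K) = 0 := by
  unfold pol
  exact Finset.sum_eq_zero fun s _ => by rw [Pi.zero_apply, map_zero]

/-- the dehomogenization as a substitution -/
theorem pol_dehom {e : ℕ} {h : MvPolynomial (Fin (n + 1)) K} (hh : h.IsHomogeneous e) :
    pol (dehom e h) = aeval (Fin.cons 1 X : Fin (n + 1) → MvPolynomial (Fin n) K) h := by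
  classical
  have key : ∀ S : Finset (Fin (n + 1) →₀ ℕ), (∀ s ∈ S, s.degree = e) →
      pol (dehom e (∑ s ∈ S, monomial s (coeff s h))) =
        aeval (Fin.cons 1 X : Fin (n + 1) → MvPolynomial (Fin n) K)
          (∑ s ∈ S, monomial s (coeff s h)) := by
    intro S
    induction S using Finset.induction_on with
    | empty =>
      intro _
      rw [Finset.sum_empty, map_zero]
      have : dehom e (0 : MvPolynomial (Fin (n + 1)) K) = 0 := by
        funext s
        exact coeff_zero _
      rw [this, pol_zero_cd]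
    | insert s S hs ih =>
      intro hS
      rw [Finset.sum_insert hs, dehom_add, pol_add_cd, map_add,
        ih fun t ht => hS t (Finset.mem_insert_of_mem ht),
        pol_dehom_monomial s (hS s (Finset.mem_insert_self _ _))]
      congr 1
      rw [aeval_monomial, algebraMap_eq, monomial_eq (s := Finsupp.tail s)]
      congr 1
      rw [Finsupp.prod_fintype _ _ fun i => pow_zero _, Finsupp.prod_fintype _ _ fun i => pow_zero _,
        Fin.prod_univ_succ]
      simp only [Fin.cons_zero, one_pow, one_mul, Fin.cons_succ]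
      rfl
  have h1 := key h.support fun s hs => by
    have := hh (mem_support_iff.1 hs)
    rwa [Finsupp.degree_eq_weight_one]
  rwa [support_sum_monomial_coeff] at h1

end dehom

end Pool.Agent.BT
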