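import Pool.Agent.Helper37.BT.Basic
import Mathlib

/-!
# Project BERTINI: homogeneous ideals and the Nullstellensatz
-/

universe u v

namespace Pool.Agent.BT

open MvPolynomial

/-- the homogeneous components of a product with a form -/
lemma homogeneousComponent_mul_form {R : Type u} [CommRing R] {σ : Type v} {d : ℕ}
    {F : MvPolynomial σ R} (hF : F.IsHomogeneous d) (p : MvPolynomial σ R) (c : ℕ) :
    homogeneousComponent c (p * F) =
      if d ≤ c then homogeneousComponent (c - d) p * F else 0 := by
  classical
  conv_lhs => rw [← sum_homogeneousComponent p]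
  rw [Finset.sum_mul, map_sum]
  have h1 : ∀ i, homogeneousComponent c (homogeneousComponent i p * F) =
      if c = i + d then homogeneousComponent i p * F else 0 := fun i =>
    homogeneousComponent_of_mem ((homogeneousComponent_isHomogeneous i p).mul hF)
  rw [Finset.sum_congr rfl fun i _ => h1 i]
  by_cases hd : d ≤ c
  · rw [if_pos hd]
    by_cases hi : c - d ∈ Finset.range (p.totalDegree + 1)
    · rw [Finset.sum_eq_single_of_mem _ hi, if_pos (by omega)]
      intro i _ hne
      rw [if_neg (by omega)]
    · rw [Finset.sum_eq_zero, homogeneousComponent_eq_zero _ _ (by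
        rw [Finset.mem_range] at hi; omega), zero_mul]
      intro i hi'
      rw [if_neg]
      intro h
      apply hi
      have : c - d = i := by omega
      rwa [this]
  · rw [if_neg hd]
    refine Finset.sum_eq_zero fun i _ => ?_
    rw [if_neg (by omega)]

/-- pigeonhole -/
lemma exists_le_of_degree {P n : ℕ} (s : Fin P →₀ ℕ) (hs : P * n < s.degree) : ∃ j, n ≤ s j := by
  by_contra h
  push Not at h
  rw [Finsupp.degree_eq_sum] at hs
  have h1 : ∑ i, s i ≤ ∑ _i : Fin P, n := Finset.sum_le_sum fun i _ => (h i).le
  rw [Finset.sum_const, Finset.card_univ, Fintype.card_fin, smul_eq_mul] at h1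
  omega

/-- homogeneous Nullstellensatz: forms without common zero generate all forms of large degree -/
theorem exists_comb_of_no_zero {K : Type u} [Field K] {P : ℕ} {I : Type} [Fintype I] {d : I → ℕ}
    (F : I → MvPolynomial (Fin P) K) (hF : ∀ i, (F i).IsHomogeneous (d i))
    (h0 : ∀ Q : Fin P → AlgebraicClosure K, (∀ i, aeval Q (F i) = 0) → Q = 0) :
    ∃ c : ℕ, 1 ≤ c ∧ ∀ G : MvPolynomial (Fin P) K, G.IsHomogeneous c →
      ∃ A : I → MvPolynomial (Fin P) K, (∀ i, A i ≠ 0 → d i ≤ c) ∧
        (∀ i, (A i).IsHomogeneous (c - d i)) ∧ G = ∑ i, A i * F i := by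
  classical
  let J : Ideal (MvPolynomial (Fin P) K) := Ideal.span (Set.range F)
  have hz : ∀ x ∈ zeroLocus (AlgebraicClosure K) J, x = 0 := fun x hx =>
    h0 x fun i => hx _ (Ideal.subset_span ⟨i, rfl⟩)
  have hrad : ∀ j, (X j : MvPolynomial (Fin P) K) ∈ J.radical := by
    intro j
    rw [← vanishingIdeal_zeroLocus_eq_radical (K := AlgebraicClosure K) J]
    intro x hx
    rw [hz x hx, aeval_X, Pi.zero_apply]
  have hpow : ∀ j, ∃ n, (X j : MvPolynomial (Fin P) K) ^ n ∈ J := fun j => hrad j
  choose n hn using hpow
  let m := ∑ j, n j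
  have hm : ∀ j, n j ≤ m := fun j => Finset.single_le_sum (fun _ _ => Nat.zero_le _)
    (Finset.mem_univ j)
  refine ⟨P * m + 1, by omega, fun G hG => ?_⟩
  have hGJ : G ∈ J := by
    rw [← support_sum_monomial_coeff G]
    refine Ideal.sum_mem _ fun s hs => ?_
    have hdeg : s.degree = P * m + 1 := by
      have := hG (mem_support_iff.1 hs)
      rwa [Finsupp.degree_eq_weight_one]
    obtain ⟨j, hj⟩ := exists_le_of_degree s (n := m) (by omega)
    have h1 : Finsupp.single j (n j) ≤ s := by
      rw [Finsupp.single_le_iff]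
      exact (hm j).trans hj
    have h2 : monomial s (coeff s G) =
        monomial (s - Finsupp.single j (n j)) (coeff s G) * X j ^ n j := by
      rw [X_pow_eq_monomial, monomial_mul, mul_one, tsub_add_cancel_of_le h1]
    rw [h2]
    exact Ideal.mul_mem_left _ _ (hn j)
  obtain ⟨A, hA⟩ := (Ideal.mem_span_range_iff_exists_fun).1 hGJ
  refine ⟨fun i => if d i ≤ P * m + 1 then homogeneousComponent (P * m + 1 - d i) (A i) else 0,
    fun i hi => ?_, fun i => ?_, ?_⟩
  · by_contra h
    exact hi (if_neg h)
  · dsimp only
    split_ifs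
    · exact homogeneousComponent_isHomogeneous _ _
    · exact isHomogeneous_zero _ _ _
  · have h1 := congrArg (homogeneousComponent (P * m + 1)) hA
    rw [map_sum, homogeneousComponent_of_mem (m := P * m + 1) (n := P * m + 1) hG,
      if_pos rfl] at h1
    rw [← h1]
    refine Finset.sum_congr rfl fun i _ => ?_
    rw [homogeneousComponent_mul_form (hF i)]
    dsimp only
    split_ifs
    · rfl
    · rw [zero_mul]

end Pool.Agent.BT
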