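import Pool.Agent.Helper65.BT.Hom
import Pool.Agent.Helper65.BT.Dehom

/-!
# Project BERTINI: rational linear forms without common zero
-/

universe u v

namespace Pool.Agent.BT

open MvPolynomial

/-- a nonzero polynomial does not vanish at all rational points -/
theorem exists_rat_eval_ne_zero {K : Type u} [Field K] [CharZero K] {σ : Type v}
    (p : MvPolynomial σ K) (hp : p ≠ 0) :
    ∃ x : σ → ℚ, eval (fun i => ((x i : ℚ) : K)) p ≠ 0 := by
  by_contra h
  push Not at h
  apply hp
  refine funext_set (fun _ => Set.range ((↑) : ℚ → K))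
    (fun _ => Set.infinite_range_of_injective Rat.cast_injective) fun x hx => ?_
  choose y hy using fun i => hx i (Set.mem_univ _)
  have h1 : x = fun i => (y i : K) := funext fun i => (hy i).symm
  rw [h1, h, map_zero]

/-- if all forms of degree `c` are combinations of the forms `h u` and of the linear forms with the
coefficients `l i`, then also for the rows of some invertible rational matrix -/
theorem exists_rational_rows {K : Type u} [Field K] [CharZero K] {P r c : ℕ} (hr : r ≤ P)
    (hc : 1 ≤ c) {U : Type} [Fintype U] {e : U → ℕ} (h : U → MvPolynomial (Fin P) K)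
    (hh : ∀ u, (h u).IsHomogeneous (e u)) (l : Fin r → Fin P → K)
    (hl : ∀ G : MvPolynomial (Fin P) K, G.IsHomogeneous c →
      ∃ (A : Fin r → MvPolynomial (Fin P) K) (b : U → MvPolynomial (Fin P) K),
        (∀ i, (A i).IsHomogeneous (c - 1)) ∧ (∀ u, b u ≠ 0 → e u ≤ c) ∧
        (∀ u, (b u).IsHomogeneous (c - e u)) ∧
        G = ∑ i, A i * (∑ j, C (l i j) * X j) + ∑ u, b u * h u) :
    ∃ g : Matrix (Fin P) (Fin P) ℚ, g.det ≠ 0 ∧
      ∀ G : MvPolynomial (Fin P) K, G.IsHomogeneous c →
        ∃ (A : Fin r → MvPolynomial (Fin P) K) (b : U → MvPolynomial (Fin P) K),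
          (∀ i, (A i).IsHomogeneous (c - 1)) ∧ (∀ u, b u ≠ 0 → e u ≤ c) ∧
          (∀ u, (b u).IsHomogeneous (c - e u)) ∧
          G = ∑ i, A i * (∑ j, C ((g (Fin.castLE hr i) j : ℚ) : K) * X j) +
            ∑ u, b u * h u := by
  classical
  let E : Type := {s : MonV P c // s.1.degree = c}
  have hmono : ∀ q : E, (monomial q.1.1 (1 : K)).IsHomogeneous c := fun q =>
    isHomogeneous_monomial _ q.2
  choose A0 b0 hA0 hb0 hb0' hG0 using fun q : E => hl _ (hmono q)
  -- the combinations with the rows `y`
  let Gq : (Fin P × Fin P → K) → E → MvPolynomial (Fin P) K := fun y q =>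
    ∑ i, A0 q i * (∑ j, C (y (Fin.castLE hr i, j)) * X j) + ∑ u, b0 q u * h u
  have hGq : ∀ y q, (Gq y q).IsHomogeneous c := by
    intro y q
    refine IsHomogeneous.add (IsHomogeneous.sum _ _ _ fun i _ => ?_)
      (IsHomogeneous.sum _ _ _ fun u _ => ?_)
    · have h1 : (∑ j, C (y (Fin.castLE hr i, j)) * X j : MvPolynomial (Fin P) K).IsHomogeneous 1 :=
        IsHomogeneous.sum _ _ _ fun j _ => by
          have := (isHomogeneous_C (Fin P) (y (Fin.castLE hr i, j))).mul (isHomogeneous_X K j)
          rwa [zero_add] at this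
      have h2 := (hA0 q i).mul h1
      rwa [Nat.sub_add_cancel hc] at h2
    · by_cases hb : b0 q u = 0
      · rw [hb, zero_mul]
        exact isHomogeneous_zero _ _ _
      · have h2 := (hb0' q u).mul (hh u)
        rwa [Nat.sub_add_cancel (hb0 q u hb)] at h2
  let D : Matrix E E (MvPolynomial (Fin P × Fin P) K) := Matrix.of fun q' q =>
    ∑ i, ∑ j, X (Fin.castLE hr i, j) * C (coeff q'.1.1 (A0 q i * X j)) +
      C (coeff q'.1.1 (∑ u, b0 q u * h u))
  have hD : ∀ y : Fin P × Fin P → K, (eval y).mapMatrix D =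
      Matrix.of fun q' q => coeff q'.1.1 (Gq y q) := by
    intro y
    ext q' q
    rw [RingHom.mapMatrix_apply, Matrix.map_apply, Matrix.of_apply]
    change eval y (∑ i, ∑ j, X (Fin.castLE hr i, j) * C (coeff q'.1.1 (A0 q i * X j)) +
      C (coeff q'.1.1 (∑ u, b0 q u * h u))) = coeff q'.1.1 (∑ i, A0 q i *
        (∑ j, C (y (Fin.castLE hr i, j)) * X j) + ∑ u, b0 q u * h u)
    rw [map_add, eval_C, map_sum, coeff_add]
    congr 1
    rw [coeff_sum]
    apply Finset.sum_congr rfl
    intro i _
    rw [map_sum, Finset.mul_sum, coeff_sum]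
    apply Finset.sum_congr rfl
    intro j _
    rw [map_mul, eval_X, eval_C, ← coeff_C_mul]
    congr 1
    ring
  -- at the given forms the matrix is the identity
  let y0 : Fin P × Fin P → K := fun a => if ha : (a.1 : ℕ) < r then l ⟨a.1, ha⟩ a.2 else 0
  have hy0 : ∀ q, Gq y0 q = monomial q.1.1 1 := by
    intro q
    rw [hG0 q]
    dsimp only [Gq, y0]
    congr 1
    refine Finset.sum_congr rfl fun i _ => ?_
    congr 1
    refine Finset.sum_congr rfl fun j _ => ?_
    rw [dif_pos (show ((Fin.castLE hr i : Fin P) : ℕ) < r from i.2)]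
    rfl
  have hD0 : (eval y0).mapMatrix D = 1 := by
    rw [hD]
    ext q' q
    rw [Matrix.of_apply, hy0, coeff_monomial, Matrix.one_apply]
    by_cases hq : q' = q
    · rw [if_pos hq, if_pos (by rw [hq])]
    · rw [if_neg hq, if_neg fun h1 => hq (Subtype.ext (Subtype.ext h1.symm))]
  have hdet : D.det ≠ 0 := by
    intro h1
    have h2 := congrArg (eval y0) h1
    rw [RingHom.map_det, hD0, Matrix.det_one, map_zero] at h2
    exact one_ne_zero h2
  have hdet' : D.det * (Matrix.mvPolynomialX (Fin P) (Fin P) K).det ≠ 0 :=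
    mul_ne_zero hdet (Matrix.det_mvPolynomialX_ne_zero (Fin P) K)
  obtain ⟨x, hx⟩ := exists_rat_eval_ne_zero _ hdet'
  rw [map_mul] at hx
  let y : Fin P × Fin P → K := fun a => ((x a : ℚ) : K)
  let M : Matrix E E K := Matrix.of fun q' q => coeff q'.1.1 (Gq y q)
  have hM : M.det ≠ 0 := by
    have h1 := left_ne_zero_of_mul hx
    rw [RingHom.map_det, hD] at h1
    exact h1
  refine ⟨Matrix.of fun i j => x (i, j), ?_, fun G hG => ?_⟩
  · intro h1
    apply right_ne_zero_of_mul hx
    rw [RingHom.map_det]
    have h2 : (eval fun i => ((x i : ℚ) : K)).mapMatrix (Matrix.mvPolynomialX (Fin P) (Fin P) K) =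
        (Rat.castHom K).mapMatrix (Matrix.of fun i j => x (i, j)) := by
      ext i j
      simp only [RingHom.mapMatrix_apply, Matrix.map_apply, Matrix.mvPolynomialX_apply, eval_X,
        Matrix.of_apply]
      rfl
    rw [h2, ← RingHom.map_det, h1, map_zero]
  · let vv : E → K := fun q' => coeff q'.1.1 G
    let w : E → K := M⁻¹.mulVec vv
    have hw : M.mulVec w = vv := by
      simp only [w]
      rw [Matrix.mulVec_mulVec, Matrix.mul_nonsing_inv _ (isUnit_iff_ne_zero.2 hM),
        Matrix.one_mulVec]
    have hCm : ∀ (a : K) {p : MvPolynomial (Fin P) K} {n : ℕ}, p.IsHomogeneous n →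
        (C a * p).IsHomogeneous n := by
      intro a p n hp
      have := (isHomogeneous_C (Fin P) a).mul hp
      rwa [zero_add] at this
    refine ⟨fun i => ∑ q, C (w q) * A0 q i, fun u => ∑ q, C (w q) * b0 q u, fun i => ?_,
      fun u hu => ?_, fun u => ?_, ?_⟩
    · exact IsHomogeneous.sum _ _ _ fun q _ => hCm _ (hA0 q i)
    · by_contra h1
      apply hu
      refine Finset.sum_eq_zero fun q _ => ?_
      have : b0 q u = 0 := by
        by_contra h2
        exact h1 (hb0 q u h2)
      rw [this, mul_zero]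
    · exact IsHomogeneous.sum _ _ _ fun q _ => hCm _ (hb0' q u)
    · have hsum : (∑ i, (∑ q, C (w q) * A0 q i) *
            (∑ j, C (((Matrix.of fun i j => x (i, j)) (Fin.castLE hr i) j : ℚ) : K) * X j) +
            ∑ u, (∑ q, C (w q) * b0 q u) * h u : MvPolynomial (Fin P) K) =
          ∑ q, C (w q) * Gq y q := by
        simp only [Gq, mul_add, Finset.sum_add_distrib]
        congr 1
        · simp only [Finset.sum_mul, Finset.mul_sum (s := Finset.univ (α := Fin r))]
          rw [Finset.sum_comm]
          refine Finset.sum_congr rfl fun q _ => Finset.sum_congr rfl fun i _ => ?_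
          rw [mul_assoc]
          rfl
        · simp only [Finset.sum_mul, Finset.mul_sum]
          rw [Finset.sum_comm]
          refine Finset.sum_congr rfl fun q _ => Finset.sum_congr rfl fun u _ => ?_
          rw [mul_assoc]
      rw [hsum]
      ext s
      by_cases hs : s.degree = c
      · have h1 : coeff s (∑ q, C (w q) * Gq y q) = (M.mulVec w) ⟨⟨s, hs.le⟩, hs⟩ := by
          rw [coeff_sum, Matrix.mulVec, dotProduct]
          refine Finset.sum_congr rfl fun q _ => ?_
          rw [coeff_C_mul, mul_comm]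
          rfl
        rw [h1, hw]
      · rw [hG.coeff_eq_zero hs,
          (IsHomogeneous.sum _ _ _ fun q _ => hCm (w q) (hGq y q)).coeff_eq_zero hs]

end Pool.Agent.BT
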